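import Pool.Agent.helper68.AM.SpecX

/-!
Project sl: module XL: the square-root law from the count of indices.
-/

set_option autoImplicit false

namespace AM

open Pool.Agent.helper72.Sq Matrix

/-- a pair conjugate to the pair of a mapping class gives the curve of the mapping class -/
lemma XL_len (ρ : F2 →* SpecialLinearGroup (Fin 2) ℝ) (γ : F2) (x : F2 × F2) (φ : MulAut F2)
    (h : PConj x (φ ga, φ gb)) :
    gLen ρ (ev x γ) = gLen ρ (φ γ) ∧ gLen ρ x.1 = gLen ρ (φ ga) ∧ gLen ρ x.2 = gLen ρ (φ gb) := by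
  obtain ⟨c, h1, h2⟩ := h
  simp only at h1 h2
  have h3 : (MulAut.conj c).toMonoidHom.comp (ev x) = φ.toMonoidHom := by
    apply F2_hom_ext
    · simp only [MonoidHom.comp_apply, ev, mk2_a, MulEquiv.coe_toMonoidHom, MulAut.conj_apply]
      exact h1.symm
    · simp only [MonoidHom.comp_apply, ev, mk2_b, MulEquiv.coe_toMonoidHom, MulAut.conj_apply]
      exact h2.symm
  have h4 : c * ev x γ * c⁻¹ = φ γ := DFunLike.congr_fun h3 γ
  refine ⟨gLen_rel ρ _ _ (Or.inl (isConj_iff.2 ⟨c, h4⟩)),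
    gLen_rel ρ _ _ (Or.inl (isConj_iff.2 ⟨c, h1.symm⟩)),
    gLen_rel ρ _ _ (Or.inl (isConj_iff.2 ⟨c, h2.symm⟩))⟩

/-- the law for a weight which can be negative -/
theorem XL_law {O : Type*} (l : O → ℝ) (hfin : ∀ R, {x | l x ≤ R}.Finite)
    (b K : ℝ) (hb : 0 < b) (hK : 0 ≤ K)
    (h : ∀ R, 1 ≤ R → |({x | l x ≤ R}.ncard : ℝ) - b * R ^ 2| ≤ K * R) :
    (∃ e : ℕ ≃ O, Monotone (fun k => l (e k))) ∧
    ∃ u C : ℝ, 0 < u ∧ ∀ e : ℕ ≃ O, Monotone (fun k => l (e k)) →
      ∀ k : ℕ, |u * √((k : ℝ) + 1) - l (e k)| ≤ C := by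
  set l' : O → ℝ := fun x => max (l x) 0 with hl'
  have heq : ∀ R, 0 ≤ R → {x | l' x ≤ R} = {x | l x ≤ R} := by
    intro R hR
    ext x
    simp only [hl', Set.mem_ofPred_eq, max_le_iff]
    exact ⟨fun h => h.1, fun h => ⟨h, hR⟩⟩
  have hfin' : ∀ R, {x | l' x ≤ R}.Finite := by
    intro R
    refine (hfin R).subset ?_
    intro x hx
    have hx' : max (l x) 0 ≤ R := hx
    exact (le_max_left _ _).trans hx'
  obtain ⟨⟨e0, he0⟩, u, C, hu, hlaw⟩ := kth_law l' hfin' (fun x => le_max_right _ _) b K hb hK (by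
    intro R hR
    rw [heq R (by linarith)]
    exact h R hR)
  have hinf : Infinite O := Infinite.of_injective e0 e0.injective
  refine ⟨exists_enum l hfin, ?_⟩
  obtain ⟨m, hm⟩ := ((hfin 0).image l).bddBelow
  have hm' : ∀ x, l x ≤ 0 → m ≤ l x := fun x hx => hm ⟨x, hx, rfl⟩
  refine ⟨u, C + |m|, hu, fun e he k => ?_⟩
  have h1 := hlaw e (fun i j hij => max_le_max (he hij) le_rfl) k
  have h2 : |l' (e k) - l (e k)| ≤ |m| := by
    rcases le_or_gt (l (e k)) 0 with h0 | h0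
    · have h3 : l' (e k) = 0 := max_eq_right h0
      rw [h3, zero_sub, abs_neg, abs_of_nonpos h0]
      have := hm' _ h0
      have := neg_abs_le m
      linarith
    · have h3 : l' (e k) = l (e k) := max_eq_left h0.le
      rw [h3, sub_self, abs_zero]
      exact abs_nonneg _
  calc |u * √((k : ℝ) + 1) - l (e k)| = |(u * √((k : ℝ) + 1) - l' (e k)) + (l' (e k) - l (e k))| := by
        congr 1; ring
    _ ≤ _ := (abs_add_le _ _).trans (add_le_add h1 h2)

/-- XL: the square-root law for `γ` from the count of the indices. -/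
theorem XL (hXM : XM_stmt) (hXF : XF_stmt) (hXP : XP_stmt) : XL_stmt := by
  intro ρ γ q _ hGW hLT
  obtain ⟨C, hC⟩ := hLT
  have hcmp : ∀ i : Ix, |cLen ρ (cv γ i) - q (lx ρ i) (ly ρ i)| ≤ C := by
    intro i
    obtain ⟨φ, hφ, hp⟩ := hXM i
    obtain ⟨h1, h2, h3⟩ := XL_len ρ γ (pr i) φ hp
    have h4 := hC φ hφ
    rw [← h1, ← h2, ← h3] at h4
    exact h4
  obtain ⟨hfin, b, K, hb, hcount⟩ := hXP _ (fun i => cLen ρ (cv γ i)) C hGW hcmp
  obtain ⟨s, hs, hfin2, hcard⟩ := hXF ρ γ hfin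
  have hs' : (1 : ℝ) ≤ s := by exact_mod_cast hs
  have hs0 : (0 : ℝ) < s := by linarith
  have hK : 0 ≤ K := by
    have := (abs_nonneg _).trans (hcount 1 le_rfl)
    linarith
  obtain ⟨he, u, C1, hu, hlaw⟩ := XL_law (fun x : orb γ => cLen ρ x) hfin2 (b / s) (K + 8)
    (by positivity) (by positivity) (by
    intro R hR
    have h1 := hcard R
    have h2 := hcount R hR
    have h3 : |(s : ℝ) * (({x : orb γ | cLen ρ x ≤ R}.ncard : ℝ) - b / s * R ^ 2)| ≤ (K + 8) * R := by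
      have e1 : (s : ℝ) * (({x : orb γ | cLen ρ x ≤ R}.ncard : ℝ) - b / s * R ^ 2) =
        ((({i : Ix | cLen ρ (cv γ i) ≤ R}.ncard : ℝ)) - b * R ^ 2) -
        ((({i : Ix | cLen ρ (cv γ i) ≤ R}.ncard : ℝ)) -
          s * ({x : orb γ | cLen ρ x ≤ R}.ncard : ℝ)) := by
        field_simp; ring
      rw [e1]
      refine (abs_sub _ _).trans ?_
      nlinarith
    rw [abs_mul, abs_of_pos hs0] at h3
    refine le_trans ?_ h3
    exact le_mul_of_one_le_left (abs_nonneg _) hs')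
  refine ⟨he, u, 0, C1, hu, fun e hmono k => ?_⟩
  rw [add_zero]
  exact hlaw e hmono k

end AM
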